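import Pool.Agent.Lib.MP_f3d5fe_al.Main

set_option autoImplicit false

/-!
The order of a nonabelian `p`-group is bounded by a function of the average number of zeros of
its character table.
-/

namespace Pool.Agent.Results.MP_f3d5fe_al.OrderBound

universe u

/-- The set `Irr(G)` of irreducible complex characters of `G`: the functions `G → ℂ` which are the
character (trace) of some irreducible representation of `G` on some `ℂⁿ`. -/
def Irr (G : Type u) [Group G] : Set (G → ℂ) :=
  {χ | ∃ (n : ℕ) (ρ : Representation ℂ G (Fin n → ℂ)), ρ.IsIrreducible ∧ ρ.character = χ}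

/-- The zero entries of the character table of `G`: the pairs `(χ, K)` of an irreducible character
`χ` and a conjugacy class `K` such that `χ` vanishes on `K`. -/
def zeroEntries (G : Type u) [Group G] : Set ((G → ℂ) × ConjClasses G) :=
  {e | e.1 ∈ Irr G ∧ ∀ g : G, ConjClasses.mk g = e.2 → e.1 g = 0}

/-- The average number `anz(G) = z(G) / k(G)` of zeros of the character table of `G`, where `z(G)`
is the number of zero entries and `k(G)` is the number of conjugacy classes. -/
noncomputable def anz (G : Type u) [Group G] : ℝ :=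
  ((zeroEntries G).ncard : ℝ) / (Nat.card (ConjClasses G) : ℝ)

/-- There is a function `f : ℝ → ℝ` such that `|G| ≤ f (anz(G))` for every prime `p` and every
nonabelian finite `p`-group `G`. -/
theorem result : ∃ f : ℝ → ℝ, ∀ (p : ℕ), p.Prime → ∀ (G : Type u) [Group G] [Finite G],
    IsPGroup p G → (∃ a b : G, a * b ≠ b * a) → (Nat.card G : ℝ) ≤ f (anz G) := by
  choose f hf using Lib.MP_f3d5fe_al.order_bound.{u}
  refine ⟨f, ?_⟩
  intro p hp G _ _ hG hna
  have : Fact p.Prime := ⟨hp⟩
  have : Fintype G := Fintype.ofFinite G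
  apply hf (anz G) p G hG hna
  have hk : (0 : ℝ) < Lib.MP_f3d5fe_al.kk G := Lib.MP_f3d5fe_al.kk_pos
  have h1 : anz G = Lib.MP_f3d5fe_al.zz G / Lib.MP_f3d5fe_al.kk G := rfl
  rw [h1, div_mul_cancel₀ _ hk.ne']

end Pool.Agent.Results.MP_f3d5fe_al.OrderBound
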